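import Pool.Agent.Lib.MP_830c64_nt.CL.BFinal
import Pool.Agent.Lib.MP_830c64_nt.CL.FI
import Pool.Agent.Lib.MP_830c64_nt.CL.ZDens
import Pool.Agent.Lib.MP_830c64_nt.CL.ASoft

/-! For all but `O(X ^ ε)` fields of odd degree `n ≥ 5` with Galois group `S n` and discriminant at
most `X`, the 2-torsion of the narrow class group has size `O(|D| ^ (1 / 4 + ε))`. -/

namespace Pool.Agent.Results.MP_830c64_nt.AlmostAllQuarter

open NumberField Pool.Agent.Lib.MP_830c64_nt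

theorem result (n : ℕ) (hn : Odd n) (h5 : 5 ≤ n) (ε : ℝ) (hε : 0 < ε) :
    ∃ A : ℝ, ∀ X : ℝ, 1 ≤ X → ∀ (ι : Type) (s : Finset ι) (K : ι → Type)
      [∀ i, Field (K i)] [∀ i, NumberField (K i)],
      (∀ i ∈ s, Module.finrank ℚ (K i) = n ∧ IsSn n (K i) ∧ |(discr (K i) : ℝ)| ≤ X) →
      (∀ i ∈ s, ∀ j ∈ s, Nonempty (K i ≃+* K j) → i = j) →
      (Set.ncard {i | i ∈ s ∧ ¬ (Finite (NarrowClass (𝓞 (K i)) (K i)) ∧
        (twoTors (NarrowClass (𝓞 (K i)) (K i)) : ℝ) ≤ A * |(discr (K i) : ℝ)| ^ (1 / 4 + ε))} : ℝ) ≤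
        A * X ^ ε :=
  CL.main CL.cancel CL.fi CL.dens CL.soft n hn h5 ε hε

end Pool.Agent.Results.MP_830c64_nt.AlmostAllQuarter
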