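import Pool.Agent.Lib.MP_830c64_nt.Stmt

/-! A bound for the average size of the 2-torsion of the narrow class group over any finite family
of number fields of odd degree `n ≥ 5` and discriminant at most `X` (a family with one member gives
the bound for each field). -/

namespace Pool.Agent.Results.MP_830c64_nt.TwoTorsionBound

open NumberField Pool.Agent.Lib.MP_830c64_nt

theorem result (n : ℕ) (hn : Odd n) (h5 : 5 ≤ n) :
    0 < bpar n ∧ kap (bpar n) < 1 ∧ expo n < 1 / 2 - 3 / (4 * (n : ℝ)) ∧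
    ∀ ε : ℝ, 0 < ε → ∃ A : ℝ, ∀ (X : ℝ) (ι : Type) (s : Finset ι) (K : ι → Type)
      [∀ i, Field (K i)] [∀ i, NumberField (K i)],
      (∀ i ∈ s, Module.finrank ℚ (K i) = n ∧ |(discr (K i) : ℝ)| ≤ X) →
      (∀ i ∈ s, Finite (NarrowClass (𝓞 (K i)) (K i))) ∧
        ∑ i ∈ s, (twoTors (NarrowClass (𝓞 (K i)) (K i)) : ℝ) ≤
          A * X ^ (expo n + ε) * s.card := by
  refine ⟨bpar_pos (by omega), kap_lt_one h5, expo_lt h5, fun ε hε => ?_⟩
  obtain ⟨A, hA, h⟩ := h2_bound hn h5 hε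
  have key : ∀ (K : Type) [Field K] [NumberField K], Module.finrank ℚ K = n →
      Finite (NarrowClass (𝓞 K) K) ∧ (twoTors (NarrowClass (𝓞 K) K) : ℝ) ≤
        2 ^ n * A * |(discr K : ℝ)| ^ (expo n + ε) := by
    intro K _ _ hK
    obtain ⟨h1, h2'⟩ := narrowClass_le K
    refine ⟨h1, ?_⟩
    rw [hK] at h2'
    have h3 : (twoTors (NarrowClass (𝓞 K) K) : ℝ) ≤ 2 ^ n * (h2 K : ℝ) := by
      exact_mod_cast h2'
    refine h3.trans ?_
    rw [mul_assoc]
    exact mul_le_mul_of_nonneg_left (h K hK) (by positivity)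
  have he : 0 ≤ expo n + ε := by
    have h1 := kap_lt_one h5
    have h5' : (5 : ℝ) ≤ n := by exact_mod_cast h5
    have h2' : 1 / (n : ℝ) ≤ 1 / 2 := one_div_le_one_div_of_le (by norm_num) (by linarith)
    have : 0 ≤ expo n := div_nonneg (by linarith) (by linarith)
    linarith
  refine ⟨2 ^ n * A, fun X ι s K _ _ hs => ⟨fun i hi => (key (K i) (hs i hi).1).1, ?_⟩⟩
  rw [mul_comm _ (s.card : ℝ), ← nsmul_eq_mul]
  refine Finset.sum_le_card_nsmul _ _ _ fun i hi => (key (K i) (hs i hi).1).2.trans ?_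
  exact mul_le_mul_of_nonneg_left
    (Real.rpow_le_rpow (abs_nonneg _) (hs i hi).2 he) (by positivity)

end Pool.Agent.Results.MP_830c64_nt.TwoTorsionBound
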